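import Mathlib
import Pool.Agent.Work.MP_62db8e_nt.Sw.Main

/-!
# The Erdős minimum overlap problem: the rate of convergence of `M(n)/n`
-/

set_option autoImplicit false

namespace Pool.Agent.Results.MP_62db8e_nt.ConvergenceRate

open Finset Filter Topology

/-- `O_k(A,B)`: the number of pairs `(a,b) ∈ A × B` with `a - b = k`. -/
def overlap (A B : Finset ℤ) (k : ℤ) : ℕ := ((A ×ˢ B).filter (fun p => p.1 - p.2 = k)).card

/-- `O(A,B) = max_k O_k(A,B)`. -/
noncomputable def maxOverlap (A B : Finset ℤ) : ℕ := ⨆ k : ℤ, overlap A B k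

/-- `(A,B)` is a splitting of `{1,…,2n}` into two disjoint halves of size `n`. -/
def IsSplitting (n : ℕ) (A B : Finset ℤ) : Prop :=
  Disjoint A B ∧ A ∪ B = Finset.Icc 1 (2 * (n : ℤ)) ∧ A.card = n ∧ B.card = n

/-- `M(n)`: the least `O(A,B)` over all splittings of `{1,…,2n}`. -/
noncomputable def M (n : ℕ) : ℕ := sInf {m : ℕ | ∃ A B : Finset ℤ, IsSplitting n A B ∧ maxOverlap A B = m}

/-- **The rate of convergence in the minimum overlap problem.** The sequence `M(n)/n` converges to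
a number `μ`, and `μ n ≤ M(n) ≤ μ n + 10 √(n log n)` for every `n ≥ 2`. -/
theorem result : ∃ μ : ℝ, Tendsto (fun n : ℕ => (M n : ℝ) / n) atTop (𝓝 μ) ∧
    ∀ n : ℕ, 2 ≤ n → μ * n ≤ M n ∧ (M n : ℝ) ≤ μ * n + 10 * √(n * Real.log n) := by
  obtain ⟨μ, h1, h2, -⟩ := Pool.Agent.Work.MP_62db8e_nt.Sw.Main.both
  exact ⟨μ, h1, h2⟩

end Pool.Agent.Results.MP_62db8e_nt.ConvergenceRate
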