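import Mathlib
import Pool.Agent.Work.MP_62db8e_nt.Num

/-!
# The Erdős minimum overlap problem: `M(n) ≥ 0.3806 n` for every `n ≥ 1`
-/

namespace Pool.Agent.Results.MP_62db8e_nt.LowerBound
open MinOverlap
open Finset

/-- `O_k(A,B)`: the number of pairs `(a,b) ∈ A × B` with `a - b = k`. -/
def overlap (A B : Finset ℤ) (k : ℤ) : ℕ := ((A ×ˢ B).filter (fun p => p.1 - p.2 = k)).card

/-- `O(A,B) = max_k O_k(A,B)`. -/
noncomputable def maxOverlap (A B : Finset ℤ) : ℕ := ⨆ k : ℤ, overlap A B k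

/-- `(A,B)` is a splitting of `{1,…,2n}` into two disjoint halves of size `n`. -/
def IsSplitting (n : ℕ) (A B : Finset ℤ) : Prop :=
  Disjoint A B ∧ A ∪ B = Finset.Icc 1 (2 * (n : ℤ)) ∧ A.card = n ∧ B.card = n

/-- `M(n)`: the least `O(A,B)` over all splittings of `{1,…,2n}`. -/
noncomputable def M (n : ℕ) : ℕ := sInf {m : ℕ | ∃ A B : Finset ℤ, IsSplitting n A B ∧ maxOverlap A B = m}

theorem overlap_le_card (A B : Finset ℤ) (k : ℤ) : overlap A B k ≤ (A ×ˢ B).card :=
  Finset.card_filter_le _ _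

theorem overlap_le_max (A B : Finset ℤ) (k : ℤ) : overlap A B k ≤ maxOverlap A B := by
  refine le_ciSup (f := fun k => overlap A B k) ?_ k
  exact ⟨(A ×ˢ B).card, by rintro _ ⟨k, rfl⟩; exact overlap_le_card A B k⟩

/-- indicator of `A`, shifted -/
def ind (A : Finset ℤ) (u : ℕ) : ℤ := if ((u : ℤ) + 1) ∈ A then 1 else 0

/-- correlation of two indicators at the integer level -/
theorem corr_le (A B : Finset ℤ) (n k : ℕ) (mm : ℤ) (h : ∀ k : ℤ, (overlap A B k : ℤ) ≤ mm) :
    ∑ u ∈ range n, ind A u * ind B (u + k) ≤ mm := by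
  have h1 : ∑ u ∈ range n, ind A u * ind B (u + k)
      = (((range n).filter (fun u : ℕ => ((u : ℤ) + 1) ∈ A ∧ (((u + k : ℕ) : ℤ) + 1) ∈ B)).card : ℤ) := by
    rw [Finset.card_filter]
    push_cast
    refine Finset.sum_congr rfl fun u _ => ?_
    unfold ind
    push_cast
    by_cases h1 : ((u : ℤ) + 1) ∈ A
    · by_cases h2 : ((u : ℤ) + k + 1) ∈ B
      · simp [h1, h2]
      · simp [h1, h2]
    · simp [h1]
  rw [h1]
  refine le_trans ?_ (h (-(k : ℤ)))
  have : ((range n).filter (fun u : ℕ => ((u : ℤ) + 1) ∈ A ∧ (((u + k : ℕ) : ℤ) + 1) ∈ B)).card ≤ overlap A B (-(k : ℤ)) := by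
    unfold overlap
    refine Finset.card_le_card_of_injOn (fun u : ℕ => (((u : ℤ) + 1), (((u + k : ℕ) : ℤ) + 1))) ?_ ?_
    · intro u hu
      have hu' := (Finset.mem_filter.1 hu).2
      refine Finset.mem_filter.2 ⟨Finset.mem_product.2 hu', ?_⟩
      push_cast; ring
    · intro u _ v _ huv
      have := congrArg Prod.fst huv
      dsimp only at this
      omega
  exact_mod_cast this

theorem overlap_swap (A B : Finset ℤ) (k : ℤ) : overlap B A k = overlap A B (-k) := by
  unfold overlap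
  refine Finset.card_bij (fun p _ => (p.2, p.1)) ?_ ?_ ?_
  · intro p hp
    rw [Finset.mem_filter, Finset.mem_product] at hp ⊢
    exact ⟨⟨hp.1.2, hp.1.1⟩, by have := hp.2; dsimp only; omega⟩
  · intro p _ q _ h
    have h1 := congrArg Prod.fst h
    have h2 := congrArg Prod.snd h
    exact Prod.ext h2 h1
  · intro p hp
    rw [Finset.mem_filter, Finset.mem_product] at hp
    refine ⟨(p.2, p.1), ?_, rfl⟩
    rw [Finset.mem_filter, Finset.mem_product]
    exact ⟨⟨hp.1.2, hp.1.1⟩, by have := hp.2; dsimp only; omega⟩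

/-- blow-up correlations -/
theorem blow_le (A B : Finset ℤ) (n R p : ℕ) (hR : 0 < R) (mm : ℤ) (h : ∀ k : ℤ, (overlap A B k : ℤ) ≤ mm) :
    ∑ s ∈ range (n * R), ind A (s / R) * ind B ((s + p) / R) ≤ R * mm := by
  rw [sum_block (fun s => ind A (s / R) * ind B ((s + p) / R)) n R, Finset.sum_comm]
  have h1 : ∀ ρ ∈ range R, ∑ u ∈ range n, ind A ((u * R + ρ) / R) * ind B ((u * R + ρ + p) / R) ≤ mm := by
    intro ρ hρ
    rw [mem_range] at hρ
    have h2 : ∀ u ∈ range n, ind A ((u * R + ρ) / R) * ind B ((u * R + ρ + p) / R)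
        = ind A u * ind B (u + (ρ + p) / R) := by
      intro u _
      have e1 : (u * R + ρ) / R = u := by
        rw [mul_comm, Nat.mul_add_div hR, Nat.div_eq_of_lt hρ, add_zero]
      have e2 : (u * R + ρ + p) / R = u + (ρ + p) / R := by
        rw [add_assoc, mul_comm, Nat.mul_add_div hR]
      rw [e1, e2]
    rw [Finset.sum_congr rfl h2]
    exact corr_le A B n _ mm h
  refine (Finset.sum_le_sum h1).trans (le_of_eq ?_)
  rw [Finset.sum_const, card_range, nsmul_eq_mul]

theorem sum_ind (A : Finset ℤ) (n : ℕ) (hA : ∀ x ∈ A, 1 ≤ x ∧ x ≤ n) : ∑ u ∈ range n, ind A u = A.card := by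
  have h1 : ∑ u ∈ range n, ind A u = (((range n).filter (fun u : ℕ => ((u : ℤ) + 1) ∈ A)).card : ℤ) := by
    rw [Finset.card_filter]
    push_cast
    rfl
  rw [h1]
  congr 1
  refine Finset.card_bij (fun (u : ℕ) _ => (u : ℤ) + 1) ?_ ?_ ?_
  · intro u hu
    exact (Finset.mem_filter.1 hu).2
  · intro u _ v _ h
    omega
  · intro x hx
    obtain ⟨h1, h2⟩ := hA x hx
    refine ⟨(x - 1).toNat, ?_, ?_⟩
    · rw [Finset.mem_filter, mem_range]
      have : (((x - 1).toNat : ℕ) : ℤ) = x - 1 := Int.toNat_of_nonneg (by omega)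
      refine ⟨by omega, ?_⟩
      rw [this]; simpa using hx
    · have : (((x - 1).toNat : ℕ) : ℤ) = x - 1 := Int.toNat_of_nonneg (by omega)
      omega

/-- The bound for one splitting. -/
theorem splitting_bound (n : ℕ) (hn : 0 < n) (A B : Finset ℤ) (hAB : IsSplitting n A B) (mm : ℤ)
    (h : ∀ k : ℤ, (overlap A B k : ℤ) ≤ mm) : 3806 * (n : ℤ) ≤ 10000 * mm := by
  obtain ⟨hdis, hun, hcA, hcB⟩ := hAB
  have hAsub : ∀ x ∈ A, 1 ≤ x ∧ x ≤ ((2 * n : ℕ) : ℤ) := by
    intro x hx
    have : x ∈ Finset.Icc 1 (2 * (n : ℤ)) := by rw [← hun]; exact Finset.mem_union_left _ hx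
    rw [Finset.mem_Icc] at this
    push_cast; exact this
  have hBsub : ∀ x ∈ B, 1 ≤ x ∧ x ≤ ((2 * n : ℕ) : ℤ) := by
    intro x hx
    have : x ∈ Finset.Icc 1 (2 * (n : ℤ)) := by rw [← hun]; exact Finset.mem_union_right _ hx
    rw [Finset.mem_Icc] at this
    push_cast; exact this
  have hX : 240 * (4 * (4 * n)) = (2 * n) * 1920 := by ring
  have h' : ∀ k : ℤ, (overlap B A k : ℤ) ≤ mm := fun k => by rw [overlap_swap]; exact h _
  have hlt : ∀ x, x < 240 * (4 * (4 * n)) → x / 1920 < 2 * n := by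
    intro x hx
    rw [Nat.div_lt_iff_lt_mul (by norm_num)]; omega
  have hge : ∀ x, 240 * (4 * (4 * n)) ≤ x → 2 * n ≤ x / 1920 := by
    intro x hx
    rw [Nat.le_div_iff_mul_le (by norm_num)]; omega
  refine num_ineq n hn mm (fun s => ind A (s / 1920)) (fun s => ind B (s / 1920)) ?_ ?_ ?_ ?_ ?_ ?_ ?_
  · intro x hx
    have h1 := hge x hx
    unfold ind
    rw [if_neg]
    intro h2
    have := (hAsub _ h2).2
    push_cast at this
    omega
  · intro x hx
    have h1 := hge x hx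
    unfold ind
    rw [if_neg]
    intro h2
    have := (hBsub _ h2).2
    push_cast at this
    omega
  · intro x hx
    have h1 := hlt x hx
    have h2 : (((x / 1920 : ℕ) : ℤ) + 1) ∈ A ∪ B := by
      rw [hun, Finset.mem_Icc]
      omega
    unfold ind
    rcases Finset.mem_union.1 h2 with h3 | h3
    · rw [if_pos h3, if_neg (Finset.disjoint_left.1 hdis h3)]; norm_num
    · rw [if_pos h3, if_neg (Finset.disjoint_right.1 hdis h3)]; norm_num
  · intro x
    unfold ind
    split_ifs <;> norm_num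
  · unfold Sc
    rw [hX, sum_block (fun s => ind A (s / 1920) - ind B (s / 1920)) (2 * n) 1920]
    have h1 : ∀ i ∈ range (2 * n), ∑ ρ ∈ range 1920, (ind A ((i * 1920 + ρ) / 1920) - ind B ((i * 1920 + ρ) / 1920))
        = 1920 * (ind A i - ind B i) := by
      intro i _
      have h2 : ∀ ρ ∈ range 1920, (ind A ((i * 1920 + ρ) / 1920) - ind B ((i * 1920 + ρ) / 1920)) = ind A i - ind B i := by
        intro ρ hρ
        rw [mem_range] at hρ
        have : (i * 1920 + ρ) / 1920 = i := by omega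
        rw [this]
      rw [Finset.sum_congr rfl h2, Finset.sum_const, card_range, nsmul_eq_mul]; norm_num
    rw [Finset.sum_congr rfl h1, ← Finset.mul_sum, Finset.sum_sub_distrib, sum_ind A (2 * n) hAsub,
      sum_ind B (2 * n) hBsub, hcA, hcB, sub_self, mul_zero]
  · intro p
    unfold Op
    rw [hX]
    exact_mod_cast blow_le A B (2 * n) 1920 p (by norm_num) mm h
  · intro p
    unfold Op
    rw [hX]
    exact_mod_cast blow_le B A (2 * n) 1920 p (by norm_num) mm h'

/-- There is a splitting. -/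
theorem exists_splitting (n : ℕ) : ∃ A B : Finset ℤ, IsSplitting n A B := by
  refine ⟨Finset.Icc 1 (n : ℤ), Finset.Icc ((n : ℤ) + 1) (2 * n), ?_, ?_, ?_, ?_⟩
  · rw [Finset.disjoint_left]
    intro x hx hy
    rw [Finset.mem_Icc] at hx hy
    omega
  · ext x
    rw [Finset.mem_union, Finset.mem_Icc, Finset.mem_Icc, Finset.mem_Icc]
    omega
  · simp
  · simp; omega

/-- For every `n ≥ 1`, `M(n) ≥ 0.3806 n`; hence `μ = lim M(n)/n ≥ 0.3806`. -/
theorem result :
    (∀ n : ℕ, 1 ≤ n → (0.3806 : ℝ) * n ≤ M n) ∧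
    (∀ μ : ℝ, Filter.Tendsto (fun n : ℕ => (M n : ℝ) / n) Filter.atTop (nhds μ) → (0.3806 : ℝ) ≤ μ) := by
  have h1 : ∀ n : ℕ, 1 ≤ n → (0.3806 : ℝ) * n ≤ M n := by
    intro n hn
    have hne : {m : ℕ | ∃ A B : Finset ℤ, IsSplitting n A B ∧ maxOverlap A B = m}.Nonempty := by
      obtain ⟨A, B, hAB⟩ := exists_splitting n
      exact ⟨_, A, B, hAB, rfl⟩
    obtain ⟨A, B, hAB, hM⟩ := Nat.sInf_mem hne
    have h2 := splitting_bound n hn A B hAB (M n) (fun k => by
      have := overlap_le_max A B k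
      rw [hM] at this
      exact_mod_cast this)
    have h3 : (3806 : ℝ) * n ≤ 10000 * M n := by exact_mod_cast h2
    linarith
  refine ⟨h1, fun μ hμ => ?_⟩
  refine ge_of_tendsto hμ ?_
  filter_upwards [Filter.eventually_ge_atTop 1] with n hn
  have hpos : (0 : ℝ) < n := by exact_mod_cast hn
  rw [le_div_iff₀ hpos]
  exact h1 n hn

end Pool.Agent.Results.MP_62db8e_nt.LowerBound
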