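import Mathlib
import Pool.Agent.Work.MP_62db8e_nt.Sw.Main

/-!
# The Erdős minimum overlap problem: step functions with `R` equal steps
-/

set_option autoImplicit false

namespace Pool.Agent.Results.MP_62db8e_nt.StepFunctions

open Finset Filter Topology

/-- `O_k(A,B)`: the number of pairs `(a,b) ∈ A × B` with `a - b = k`. -/
def overlap (A B : Finset ℤ) (k : ℤ) : ℕ := ((A ×ˢ B).filter (fun p => p.1 - p.2 = k)).card

/-- `O(A,B) = max_k O_k(A,B)`. -/
noncomputable def maxOverlap (A B : Finset ℤ) : ℕ := ⨆ k : ℤ, overlap A B k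

/-- `(A,B)` is a splitting of `{1,…,2n}` into two disjoint halves of size `n`. -/
def IsSplitting (n : ℕ) (A B : Finset ℤ) : Prop :=
  Disjoint A B ∧ A ∪ B = Finset.Icc 1 (2 * (n : ℤ)) ∧ A.card = n ∧ B.card = n

/-- `M(n)`: the least `O(A,B)` over all splittings of `{1,…,2n}`. -/
noncomputable def M (n : ℕ) : ℕ := sInf {m : ℕ | ∃ A B : Finset ℤ, IsSplitting n A B ∧ maxOverlap A B = m}

/-- `h 1, …, h R` are the heights of a step function `f : [0,2] → [0,1]` with `R` steps of equal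
length `2/R` and with `∫ f = 1` (the values of `h` outside `{1,…,R}` play no role). -/
def IsStep (R : ℕ) (h : ℤ → ℝ) : Prop :=
  (∀ i ∈ Finset.Icc (1 : ℤ) R, 0 ≤ h i ∧ h i ≤ 1) ∧ ∑ i ∈ Finset.Icc (1 : ℤ) R, h i = (R : ℝ) / 2

/-- `∫ f(t) (1 - f(t + x)) dt` over the `t` with `t, t + x ∈ [0,2]`, for `x = 2k/R` and the step
function `f` with the heights `h 1, …, h R`. (The integral is a linear function of `x` between
consecutive multiples of `2/R`, so these are the values that matter for the supremum.) -/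
noncomputable def stepOverlap (R : ℕ) (h : ℤ → ℝ) (k : ℤ) : ℝ :=
  2 / R * ∑ i ∈ (Finset.Icc (1 : ℤ) R).filter (fun i => i + k ∈ Finset.Icc (1 : ℤ) R),
    h i * (1 - h (i + k))

/-- **Step functions with `R` equal steps determine `μ` up to `52/(5R)`.** The sequence `M(n)/n`
converges to a number `μ`, and for every `R ≥ 1` every step function `f : [0,2] → [0,1]` with `R` equal
steps and `∫ f = 1` has an overlap `≥ μ`, and some such step function has all its overlaps
`≤ μ + 52/(5R)`. -/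
theorem result : ∃ μ : ℝ, Tendsto (fun n : ℕ => (M n : ℝ) / n) atTop (𝓝 μ) ∧
    ∀ R : ℕ, 1 ≤ R → (∀ h : ℤ → ℝ, IsStep R h → ∃ k : ℤ, μ ≤ stepOverlap R h k) ∧
      ∃ h : ℤ → ℝ, IsStep R h ∧ ∀ k : ℤ, stepOverlap R h k ≤ μ + 52 / (5 * R) := by
  obtain ⟨μ, h1, -, h3⟩ := Pool.Agent.Work.MP_62db8e_nt.Sw.Main.both
  exact ⟨μ, h1, h3⟩

end Pool.Agent.Results.MP_62db8e_nt.StepFunctions
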