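import Mathlib
import Pool.Agent.Work.MP_62db8e_nt.Up.Data

/-!
# The Erdős minimum overlap problem: `M(n) ≤ 0.380864 n` for all large `n`
-/

namespace Pool.Agent.Results.MP_62db8e_nt.UpperBound

open Finset Filter
open Pool.Agent.Work.MP_62db8e_nt.Up

/-- `O_k(A,B)`: the number of pairs `(a,b) ∈ A × B` with `a - b = k`. -/
def overlap (A B : Finset ℤ) (k : ℤ) : ℕ := ((A ×ˢ B).filter (fun p => p.1 - p.2 = k)).card

/-- `O(A,B) = max_k O_k(A,B)`. -/
noncomputable def maxOverlap (A B : Finset ℤ) : ℕ := ⨆ k : ℤ, overlap A B k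

/-- `(A,B)` is a splitting of `{1,…,2n}` into two disjoint halves of size `n`. -/
def IsSplitting (n : ℕ) (A B : Finset ℤ) : Prop :=
  Disjoint A B ∧ A ∪ B = Finset.Icc 1 (2 * (n : ℤ)) ∧ A.card = n ∧ B.card = n

/-- `M(n)`: the least `O(A,B)` over all splittings of `{1,…,2n}`. -/
noncomputable def M (n : ℕ) : ℕ := sInf {m : ℕ | ∃ A B : Finset ℤ, IsSplitting n A B ∧ maxOverlap A B = m}

theorem overlap_eq (n : ℕ) (A : Finset ℤ) (k : ℤ) :
    overlap A (Finset.Icc 1 (2 * (n : ℤ)) \ A) k = ov n A k := by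
  unfold overlap ov
  refine Finset.card_bij (fun p _ => p.1) ?_ ?_ ?_
  · intro p hp
    obtain ⟨h1, h2⟩ := Finset.mem_filter.1 hp
    obtain ⟨h3, h4⟩ := Finset.mem_product.1 h1
    obtain ⟨h5, h6⟩ := Finset.mem_sdiff.1 h4
    have h7 : p.1 - k = p.2 := by omega
    refine Finset.mem_filter.2 ⟨h3, ?_, ?_⟩
    · rw [h7]; exact Finset.mem_Icc.1 h5
    · rw [h7]; exact h6
  · intro p hp p' hp' h
    have h2 := (Finset.mem_filter.1 hp).2
    have h2' := (Finset.mem_filter.1 hp').2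
    exact Prod.ext h (by omega)
  · intro x hx
    obtain ⟨h1, h2, h3⟩ := Finset.mem_filter.1 hx
    refine ⟨(x, x - k), ?_, rfl⟩
    refine Finset.mem_filter.2 ⟨Finset.mem_product.2 ⟨h1, Finset.mem_sdiff.2
      ⟨Finset.mem_Icc.2 h2, h3⟩⟩, ?_⟩
    dsimp only
    ring

theorem M_le (n : ℕ) (s : ℝ) (A : Finset ℤ) (hA : A ⊆ Finset.Icc 1 (2 * (n : ℤ)))
    (hc : A.card = n) (h : ∀ k, (ov n A k : ℝ) ≤ s * n) : (M n : ℝ) ≤ s * n := by
  set B := Finset.Icc 1 (2 * (n : ℤ)) \ A with hB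
  have hcard : (Finset.Icc (1 : ℤ) (2 * n)).card = 2 * n := by
    rw [Int.card_Icc]; omega
  have hs : IsSplitting n A B := by
    refine ⟨Finset.disjoint_sdiff, Finset.union_sdiff_of_subset hA, hc, ?_⟩
    rw [hB, Finset.card_sdiff_of_subset hA, hcard, hc]
    omega
  have h1 : M n ≤ maxOverlap A B := Nat.sInf_le ⟨A, B, hs, rfl⟩
  have hbdd : BddAbove (Set.range fun k : ℤ => overlap A B k) := by
    refine ⟨(A ×ˢ B).card, ?_⟩
    rintro _ ⟨k, rfl⟩
    exact Finset.card_filter_le _ _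
  obtain ⟨k, hk⟩ : ∃ k, overlap A B k = maxOverlap A B := by
    have h2 := Nat.sSup_mem (s := Set.range fun k : ℤ => overlap A B k)
      (Set.range_nonempty _) hbdd
    obtain ⟨k, hk⟩ := h2
    exact ⟨k, hk⟩
  calc (M n : ℝ) ≤ (maxOverlap A B : ℝ) := by exact_mod_cast h1
    _ = (ov n A k : ℝ) := by rw [← hk, overlap_eq]
    _ ≤ s * n := h k

/-- **Upper bound for the minimum overlap problem.** -/
theorem result : (∃ n₀ : ℕ, ∀ n ≥ n₀, (M n : ℝ) ≤ 0.380864 * n) ∧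
    ∀ μ : ℝ, Tendsto (fun n : ℕ => (M n : ℝ) / n) atTop (nhds μ) → μ ≤ 0.380864 := by
  have hmain : ∃ n₀ : ℕ, ∀ n ≥ n₀, (M n : ℝ) ≤ 0.380864 * n := by
    obtain ⟨n₀, h⟩ := eventually_sets 20 306 (by norm_num) (fun c => heights.getD c 0)
      (fun c => allLe_spec _ heights heights_le c)
      (by rw [sum_getD heights _ heights_length]; exact heights_sum) _
      (fun q => check_spec 20 306 _ heights heights_length heights_le heights_chk1 heights_chk2 q)
      0.380864 (by norm_num)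
    refine ⟨n₀, fun n hn => ?_⟩
    obtain ⟨A, hA, hc, hov⟩ := h n hn
    exact M_le n _ A hA hc hov
  refine ⟨hmain, fun μ hμ => ?_⟩
  obtain ⟨n₀, h⟩ := hmain
  refine le_of_tendsto hμ ?_
  filter_upwards [eventually_ge_atTop (max n₀ 1)] with n hn
  have hn0 : n₀ ≤ n := (le_max_left _ _).trans hn
  have hn1 : 1 ≤ n := (le_max_right _ _).trans hn
  have hnr : (0 : ℝ) < n := by exact_mod_cast hn1
  rw [div_le_iff₀ hnr]
  exact h n hn0

end Pool.Agent.Results.MP_62db8e_nt.UpperBound
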